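import Pool.Agent.Helper40.PB.Sys
import Pool.Agent.Helper47.PB.Img
import Pool.Agent.Helper75.PB.Vol
import Pool.Agent.Helper3.MX.Bas

/-! [STO-PB] The structure theorem for `CL k` gives the structure theorem for the class `CC0 k` (data of degree `k` with a
derivative which is not small): pull back along `H = (Φ, x_i)`. -/

set_option autoImplicit false

namespace Pool.Agent.Helper40.PB

open Finset Filter Topology Pool.Agent.Helper69.RK Pool.Agent.Helper31.EC Pool.Agent.Helper31.EC.Sp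
open Pool.Agent.Helper40.EL Pool.Agent.Helper89.LX Pool.Agent.Helper84.MT
open Pool.Agent.Helper36.AM Pool.Agent.Helper49.MD
open Pool.Agent.Helper75.CC Pool.Agent.Helper29.MX Pool.Agent.Helper24.PR
open Pool.Agent.Helper58.CCZ

noncomputable section

theorem sto_pb (M k v : ℕ) (h : STO (M + 2) (Cv (CL (M + 2) k) v)) : STO (M + 2) (Cv (CC0 (M + 2) k) v) := by
  intro S g r s hs
  obtain ⟨⟨t, W, ht, d, hd⟩, hI⟩ := hs
  have htu : (1 : Fin (M + 2)) ≠ t := by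
    intro e
    rw [← e] at ht
    have h1 : ((1 : Fin (M + 2)) : ℕ) = 1 := by
      rw [Fin.val_one]
    omega
  obtain ⟨κ, hκ, hW⟩ : ∃ κ : ℕ, 1 ≤ κ ∧ ⌊W⌋₊ ≤ κ := ⟨max 1 ⌊W⌋₊, le_max_left _ _, le_max_right _ _⟩
  have hl : s.DMc 0 (lb1 d htu) := fun i => lb1_leak d htu (s.cnd 0 i)
  have hE : ∀ D, lin g (κ * D) ≤ lin (g * (κ + 1)) D := lin_img g κ
  have hC : CL (M + 2) k _ (g * (κ + 1)) r (s2 d htu κ hκ hE) := ⟨t, 1, ht, Fin.val_one _, dl_s2 d htu hκ hW hE⟩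
  have hI1 : Inv v (s1 d htu) :=
    Pool.Agent.Helper3.MX.inv_bas hI (lb1 d htu) fun i => lb1_leak d htu ((s.lf i).win 0)
  have hD := derl d htu hd hW
  have hI2 : Inv v (s2 d htu κ hκ hE) := Pool.Agent.Helper47.PB.inv_img (rep_hc hD) hI1
  have h1 := h _ _ _ _ ⟨hC, hI2⟩
  have h2 : volO s 0 ≤ volO (s2 d htu κ hκ hE) 0 := Pool.Agent.Helper75.PB.volO_rep hl
    (fun i => lb1_leak d htu ((s.lf i).win 0)) (phi1 d htu κ) (idx1 d htu) (knb d htu) 1 hκ hE hD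
  have hP : PLe (pcd (s1 d htu).Q) (pcd ((rep (phi1 d htu κ) (idx1 d htu) (knb d htu) 1 hκ).val (s1 d htu).Q)) :=
    rep_cells (s1 d htu).Q (phi1 d htu κ) (idx1 d htu) (knb d htu) 1 hκ hD one_pos le_rfl
  have h3 : HQ (s2 d htu κ hκ hE) 0 ≤ HQ (s1 d htu) 0 := Pool.Agent.Helper47.PB.HQ_img_le hP 0
  have h4 : HQ (s1 d htu) 0 ≤ HQ s 0 := Pool.Agent.Helper47.PB.HQ_ovl_le s (lb1 d htu) hl
  exact (h2.trans h1).trans (h3.trans h4)

end

end Pool.Agent.Helper40.PB
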