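import Pool.Agent.Helper40.PB.Root
import Pool.Agent.Helper4.VZ.Vz
import Pool.Agent.Helper81.MT.Img

/-! POLYNOMIAL MAPS WHICH REPLACE ONE COORDINATE: `H = (Φ, x_i)`; if the derivative of `Φ` in the direction of the
replaced coordinate is not small, the cells of the point are known to the cells of its image (counting). -/

set_option autoImplicit false

namespace Pool.Agent.Helper40.PB

open Finset Filter Topology Pool.Agent.Helper69.RK Pool.Agent.Helper31.EC Pool.Agent.Helper31.EC.Sp
open Pool.Agent.Helper40.EL Pool.Agent.Helper89.LX Pool.Agent.Helper3.LF Pool.Agent.Helper84.MT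
open Pool.Agent.Helper95.LF

noncomputable section

/-! ### one direction -/

theorem lnp_upd {N : ℕ} (z : Fin N → ℝ) (j : Fin N) (q : MvPolynomial (Fin N) ℝ) (t : ℝ) :
    (lnp (Function.update z j 0) (Pi.single j 1) q).eval t = MvPolynomial.eval (Function.update z j t) q := by
  rw [lnp_eval]
  congr 1
  congr 1
  funext i
  by_cases h : i = j
  · rw [h, Function.update_self, Function.update_self, Pi.single_eq_same]
    ring
  · rw [Function.update_of_ne h, Function.update_of_ne h, Pi.single_eq_of_ne h]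
    ring

theorem dir_single {N : ℕ} (j : Fin N) (q : MvPolynomial (Fin N) ℝ) : dir (Pi.single j 1) q = MvPolynomial.pderiv j q := by
  classical
  unfold dir
  rw [Finset.sum_eq_single j]
  · rw [Pi.single_eq_same, MvPolynomial.C_1, one_mul]
  · intro i _ hi
    rw [Pi.single_eq_of_ne hi, MvPolynomial.C_0, zero_mul]
  · intro h
    exact absurd (Finset.mem_univ j) h

/-- THE COUNT for one direction -/
theorem one_dir {N κ : ℕ} {Φ : MvPolynomial (Fin N) ℝ} {j : Fin N} (hdeg : Φ.totalDegree ≤ κ) {R L r η y : ℝ}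
    (hr : 0 < r) (hη : 0 < η) (hL : 0 ≤ L)
    (hl0 : ∀ x x' : Fin N → ℝ, (∀ i, |x i| ≤ R) → (∀ i, |x' i| ≤ R) → (∀ i, |x i - x' i| ≤ r) →
      |MvPolynomial.eval x Φ - MvPolynomial.eval x' Φ| ≤ L * r)
    (hl1 : ∀ x x' : Fin N → ℝ, (∀ i, |x i| ≤ R) → (∀ i, |x' i| ≤ R) → (∀ i, |x i - x' i| ≤ r) →
      |MvPolynomial.eval x (MvPolynomial.pderiv j Φ) - MvPolynomial.eval x' (MvPolynomial.pderiv j Φ)| ≤ L * r)
    (hl2 : ∀ x : Fin N → ℝ, (∀ i, |x i| ≤ R) →
      |MvPolynomial.eval x (MvPolynomial.pderiv j (MvPolynomial.pderiv j Φ))| ≤ L)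
    (h1 : L * r ≤ η) (h2 : 8 * ((L + 1) * r) * L ≤ η ^ 2) {z : Fin N → ℝ} (hz : ∀ i, |z i| ≤ R)
    (T : Finset (Fin N → ℤ)) (hT : ∀ a ∈ T, ∃ x : Fin N → ℝ, (∀ i, |x i| ≤ R) ∧ cell r x = a ∧
      2 * η ≤ |MvPolynomial.eval x (MvPolynomial.pderiv j Φ)| ∧ (∀ i, i ≠ j → cell r x i = cell r z i) ∧
        |MvPolynomial.eval x Φ - y| ≤ r) : (T.card : ℝ) ≤ ((κ : ℝ) + 1) * (4 * (L + 1) / η + 2) := by
  classical
  set p : Polynomial ℝ := lnp (Function.update z j 0) (Pi.single j 1) Φ with hp
  have hpd : p.natDegree ≤ κ := (lnp_deg _ _ _).trans hdeg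
  have hp1 : Polynomial.derivative p = lnp (Function.update z j 0) (Pi.single j 1) (MvPolynomial.pderiv j Φ) := by
    rw [hp, lnp_deriv, dir_single]
  have hp2 : Polynomial.derivative (Polynomial.derivative p) =
      lnp (Function.update z j 0) (Pi.single j 1) (MvPolynomial.pderiv j (MvPolynomial.pderiv j Φ)) := by
    rw [hp1, lnp_deriv, dir_single]
  have hupd : ∀ t, |t| ≤ R → ∀ i, |Function.update z j t i| ≤ R := by
    intro t ht i
    by_cases h : i = j
    · rw [h, Function.update_self]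
      exact ht
    · rw [Function.update_of_ne h]
      exact hz i
  have hinj : Set.InjOn (fun a : Fin N → ℤ => a j) T := by
    intro a ha b hb hab
    obtain ⟨x, _, hx2, _, hx4, _⟩ := hT a ha
    obtain ⟨x', _, hx2', _, hx4', _⟩ := hT b hb
    funext i
    by_cases h : i = j
    · rw [h]
      exact hab
    · have e1 := hx4 i h
      have e2 := hx4' i h
      rw [hx2] at e1
      rw [hx2'] at e2
      rw [e1, e2]
  have hcard : (T.image fun a => a j).card = T.card := Finset.card_image_of_injOn hinj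
  have hδ : 0 ≤ (L + 1) * r := by positivity
  have hmain := root_count (p := p) (κ := κ) hpd (y := y) (δ := (L + 1) * r) (η := η) (B := L) (r := r) (a0 := -R)
    (b0 := R) hη hδ hL hr h2 (fun x hx hx' => by
      rw [hp2, lnp_upd]
      exact hl2 _ (hupd x (abs_le.2 ⟨hx, hx'⟩))) (T.image fun a => a j) (by
      intro b hb
      rw [Finset.mem_image] at hb
      obtain ⟨a, ha, rfl⟩ := hb
      obtain ⟨x, hx1, hx2, hx3, hx4, hx5⟩ := hT a ha
      have hxj := abs_le.1 (hx1 j)
      have hclose : ∀ i, |Function.update z j (x j) i - x i| ≤ r := by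
        intro i
        by_cases h : i = j
        · rw [h, Function.update_self, sub_self, abs_zero]
          exact hr.le
        · rw [Function.update_of_ne h]
          have e1 : ⌊x i / r⌋ = ⌊z i / r⌋ := hx4 i h
          have a1 := Int.floor_le (x i / r)
          have a2 := Int.lt_floor_add_one (x i / r)
          have a3 := Int.floor_le (z i / r)
          have a4 := Int.lt_floor_add_one (z i / r)
          rw [e1] at a1 a2
          have a5 : |z i / r - x i / r| ≤ 1 := abs_le.2 ⟨by linarith, by linarith⟩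
          rw [← sub_div, abs_div, abs_of_pos hr, div_le_one hr] at a5
          exact a5
      refine ⟨x j, hxj.1, hxj.2, ?_, ?_, ?_⟩
      · rw [hp, lnp_upd]
        have e1 := hl0 _ _ (hupd (x j) (hx1 j)) hx1 hclose
        have e2 : MvPolynomial.eval (Function.update z j (x j)) Φ - y =
            (MvPolynomial.eval (Function.update z j (x j)) Φ - MvPolynomial.eval x Φ) + (MvPolynomial.eval x Φ - y) := by
          ring
        rw [e2]
        refine (abs_add_le _ _).trans ?_
        linarith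
      · rw [hp1, lnp_upd]
        have e1 := hl1 _ _ (hupd (x j) (hx1 j)) hx1 hclose
        have e2 := abs_sub_abs_le_abs_sub (MvPolynomial.eval x (MvPolynomial.pderiv j Φ))
          (MvPolynomial.eval (Function.update z j (x j)) (MvPolynomial.pderiv j Φ))
        rw [abs_sub_comm] at e2
        linarith
      · show cell r x j = a j
        rw [hx2])
  rw [hcard] at hmain
  have e1 : 4 * ((L + 1) * r) / η / r = 4 * (L + 1) / η := by
    field_simp
  rw [e1] at hmain
  exact hmain

/-! ### systems -/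

variable {S T : Sp} {N κ : ℕ}

/-- an index which is known to the base -/
def KnB (J : ∀ k, (S.F k).Ω → Fin N) : Prop := ∀ᶠ k in UF, ∀ ω ω', (S.F k).μ ω ≠ 0 → (S.F k).μ ω' ≠ 0 →
  (S.F k).Z ω ω' → J k ω = J k ω'

/-- the derivative in the direction of the index -/
def pdv (Φ : PMap S N 1 κ) (J : ∀ k, (S.F k).Ω → Fin N) (hJ : KnB J) : PMap S N 1 κ where
  G := fun k ω _ => MvPolynomial.pderiv (J k ω) (Φ.G k ω 0)
  deg := fun k ω _ => pderiv_tdeg _ (Φ.deg k ω 0) _
  fn := by
    filter_upwards [Φ.fn, hJ] with k h1 h2 ω ω' a b c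
    funext i
    rw [h1 ω ω' a b c, h2 ω ω' a b c]
  bd := by
    obtain ⟨K, hK, hb⟩ := Φ.bd
    refine ⟨fun k => K k * κ, hK.mul (S.Sub_const (Nat.cast_nonneg κ)), ?_⟩
    filter_upwards [hb] with k h1 ω hω i a
    rw [MvPolynomial.coeff_pderiv]
    obtain ⟨b, hb⟩ : ∃ b : Fin N →₀ ℕ, b = a + Finsupp.single (J k ω) 1 := ⟨_, rfl⟩
    rw [← hb]
    by_cases h0 : (Φ.G k ω 0).coeff b = 0
    · rw [h0, zero_mul, abs_zero]
      exact mul_nonneg ((abs_nonneg _).trans (h1 ω hω 0 0)) (Nat.cast_nonneg κ)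
    · rw [abs_mul]
      have h2 := h1 ω hω 0 b
      have h3 : a (J k ω) + 1 ≤ κ := by
        have h4 := (MvPolynomial.le_totalDegree (MvPolynomial.mem_support_iff.2 h0)).trans (Φ.deg k ω 0)
        have h5 : b (J k ω) ≤ b.sum fun _ e => e := by
          rw [Finsupp.sum]
          by_cases h6 : (J k ω) ∈ b.support
          · exact Finset.single_le_sum (f := fun i => b i) (fun i _ => Nat.zero_le _) h6
          · rw [Finsupp.notMem_support_iff.1 h6]
            exact Nat.zero_le _
        rw [hb, Finsupp.add_apply, Finsupp.single_eq_same, ← hb] at h5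
        omega
      have h4 : |((a (J k ω) : ℝ) + 1)| ≤ κ := by
        rw [abs_of_nonneg (by positivity)]
        exact_mod_cast h3
      exact mul_le_mul h2 h4 (abs_nonneg _) ((abs_nonneg _).trans h2)

/-- the map which replaces the coordinate `J` by `Φ` and puts it at the place `u` -/
def rep (Φ : PMap S N 1 κ) (J : ∀ k, (S.F k).Ω → Fin N) (hJ : KnB J) (u : Fin N) (hκ : 1 ≤ κ) : PMap S N N κ where
  G := fun k ω i => if i = u then Φ.G k ω 0 else MvPolynomial.X (Equiv.swap u (J k ω) i)
  deg := by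
    intro k ω i
    split_ifs with h
    · exact Φ.deg k ω 0
    · rw [MvPolynomial.totalDegree_X]
      exact hκ
  fn := by
    filter_upwards [Φ.fn, hJ] with k h1 h2 ω ω' a b c
    funext i
    rw [h1 ω ω' a b c, h2 ω ω' a b c]
  bd := by
    classical
    obtain ⟨K, hK, hb⟩ := Φ.bd
    refine ⟨fun k => K k + 1, hK.add (S.Sub_const zero_le_one), ?_⟩
    filter_upwards [hb] with k h1 ω hω i a
    have h0 : 0 ≤ K k := (abs_nonneg _).trans (h1 ω hω 0 0)
    split_ifs with h
    · exact (h1 ω hω 0 a).trans (by linarith)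
    · rw [MvPolynomial.coeff_X]
      split_ifs
      · rw [abs_one]
        linarith
      · rw [abs_zero]
        linarith

theorem rep_u (Φ : PMap S N 1 κ) (J : ∀ k, (S.F k).Ω → Fin N) (hJ : KnB J) (u : Fin N) (hκ : 1 ≤ κ) (k : ℕ)
    (ω : (S.F k).Ω) (x : Fin N → ℝ) : (rep Φ J hJ u hκ).ev k ω x u = MvPolynomial.eval x (Φ.G k ω 0) := by
  show MvPolynomial.eval x (if u = u then Φ.G k ω 0 else _) = _
  rw [if_pos rfl]

theorem rep_ne (Φ : PMap S N 1 κ) (J : ∀ k, (S.F k).Ω → Fin N) (hJ : KnB J) (u : Fin N) (hκ : 1 ≤ κ) (k : ℕ)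
    (ω : (S.F k).Ω) (x : Fin N → ℝ) {i : Fin N} (hi : i ≠ u) :
    (rep Φ J hJ u hκ).ev k ω x i = x (Equiv.swap u (J k ω) i) := by
  show MvPolynomial.eval x (if i = u then Φ.G k ω 0 else _) = _
  rw [if_neg hi, MvPolynomial.eval_X]

/-- the derivative is not small -/
def DerL (Q : S.VV N) (Φ : PMap S N 1 κ) (J : ∀ k, (S.F k).Ω → Fin N) : Prop := ∀ ε : ℝ, 0 < ε →
  Typ (fun k ω => S.dl ε k ≤ |MvPolynomial.eval (Q.v k ω) (MvPolynomial.pderiv (J k ω) (Φ.G k ω 0))|)

/-- the number of cells -/
theorem cellv_card (y : S.VV N) {r : ℝ} (hr : r ≤ 1) : ∀ᶠ k in UF, ∀ T : Finset (Fin N → ℤ),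
    (∀ a ∈ T, ∃ ω', (S.F k).μ ω' ≠ 0 ∧ y.cellv r k ω' = a) → (T.card : ℝ) ≤ 2 ^ (2 * N * (S.F k).n) := by
  obtain ⟨K, hK, hb'⟩ := y.bd
  have hs : S.Sub (fun k => 7 * (K k + 1)) := (S.Sub_const (by norm_num)).mul (hK.add (S.Sub_const zero_le_one))
  filter_upwards [hb', hs.eventually_le one_pos, hK.1] with k h1 h2 h3 T hT
  have hn := (S.F k).pos
  have hδ := S.dl_pos 1 k
  have hδ1 := dl_one_le S k
  have hδb : S.dl 1 k ≤ S.dl r k := S.dl_anti hr k
  have hδb0 := S.dl_pos r k
  have hR : 1 ≤ (K k + 1) / S.dl 1 k := by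
    rw [le_div_iff₀ hδ]
    linarith
  have h4 := Pool.Agent.Helper14.MC.card_box T (⌈(K k + 1) / S.dl 1 k⌉₊ + 1) (by
    intro a ha i
    obtain ⟨ω', h5, rfl⟩ := hT a ha
    have h6 := h1 ω' h5 i
    have h7 : |y.v k ω' i / S.dl r k| ≤ (K k + 1) / S.dl 1 k := by
      rw [abs_div, abs_of_pos hδb0]
      exact div_le_div₀ (by linarith) (by linarith) hδ hδb
    have h8 : y.cellv r k ω' i = ⌊y.v k ω' i / S.dl r k⌋ := rfl
    have h9 := Int.floor_le (y.v k ω' i / S.dl r k)
    have h10 := Int.lt_floor_add_one (y.v k ω' i / S.dl r k)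
    have h11 := Nat.le_ceil ((K k + 1) / S.dl 1 k)
    rw [h8]
    push_cast
    rw [abs_le] at h7 ⊢
    constructor
    · linarith [h7.1]
    · linarith [h7.2])
  have h5 : (2 : ℝ) ^ (2 * N * (S.F k).n) = (2 ^ (2 * (S.F k).n)) ^ N := by
    rw [← Real.rpow_natCast, ← Real.rpow_mul (by norm_num)]
    congr 1
    ring
  rw [h5]
  refine h4.trans (pow_le_pow_left₀ (by positivity) ?_ N)
  have h6 := Nat.ceil_lt_add_one (a := (K k + 1) / S.dl 1 k) (by linarith)
  have h7 : 7 * ((K k + 1) / S.dl 1 k) ≤ 2 ^ (2 * (S.F k).n) := by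
    have e1 : 7 * ((K k + 1) / S.dl 1 k) = 7 * (K k + 1) * 2 ^ ((S.F k).n) := by
      rw [← Pool.Agent.Helper89.LX.inv_dl_one]
      ring
    rw [e1]
    have e2 : (2 : ℝ) ^ (2 * (S.F k).n) = 2 ^ (1 * (S.F k).n) * 2 ^ ((S.F k).n) := by
      rw [← Real.rpow_add (by norm_num)]
      congr 1
      ring
    rw [e2]
    exact mul_le_mul_of_nonneg_right (by linarith) (by positivity)
  push_cast
  linarith

/-- THE CELLS of the point are known to the cells of the image -/
theorem rep_cells (Q : S.VV N) (Φ : PMap S N 1 κ) (J : ∀ k, (S.F k).Ω → Fin N) (hJ : KnB J) (u : Fin N) (hκ : 1 ≤ κ)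
    (hD : DerL Q Φ J) {r : ℝ} (hr0 : 0 < r) (hr1 : r ≤ 1) :
    Nul S (fun k => Helper31.EC.h (fc (Setoid.ker (Q.cellv r k)) : FL (S.F k))
      (fc (Setoid.ker (((rep Φ J hJ u hκ).val Q).cellv r k)))) := by
  classical
  obtain ⟨R, hR, hQ⟩ := Q.bd
  obtain ⟨L0, hL0, hb0⟩ := Φ.ev_lip hR
  obtain ⟨L1, hL1, hb1⟩ := (pdv Φ J hJ).ev_lip hR
  obtain ⟨L2, hL2, hb2⟩ := (pdv (pdv Φ J hJ) J hJ).ev_bd hR
  obtain ⟨L, hLd⟩ : ∃ L : ℕ → ℝ, L = fun k => L0 k + L1 k + L2 k := ⟨_, rfl⟩
  have hL : S.Sub L := by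
    rw [hLd]
    exact (hL0.add hL1).add hL2
  have hLs : S.Sub (fun k => 32 * (L k + 1) ^ 2) :=
    (S.Sub_const (by norm_num)).mul (Sub_pow' (hL.add (S.Sub_const zero_le_one)) 2)
  have key : ∀ ε : ℝ, 0 < ε → ε ≤ r / 4 → UB (S.rt (fun k => Setoid.ker (Q.cellv r k))
      (fun k => Setoid.ker (((rep Φ J hJ u hκ).val Q).cellv r k))) ∧
      ul (S.rt (fun k => Setoid.ker (Q.cellv r k)) (fun k => Setoid.ker (((rep Φ J hJ u hκ).val Q).cellv r k))) ≤ ε := by
    intro ε hε hεr
    have h1 := Pool.Agent.Helper4.VZ.CNT_gen (S := S) (fun k => Q.cellv r k)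
      (fun k => Setoid.ker (((rep Φ J hJ u hκ).val Q).cellv r k))
      (fun k ω => S.dl ε k ≤ |MvPolynomial.eval (Q.v k ω) (MvPolynomial.pderiv (J k ω) (Φ.G k ω 0))|) (hD ε hε)
      (fun _ _ => ε) ε (Eventually.of_forall fun _ _ _ => (abs_of_pos hε).le) (fun _ _ => 0) 0
      (Eventually.of_forall fun _ _ _ => le_rfl) (fun k => ((κ : ℝ) + 1) * (8 * (L k + 1) + 2))
      ((S.Sub_const (by positivity)).mul (((S.Sub_const (by norm_num)).mul (hL.add (S.Sub_const zero_le_one))).add
        (S.Sub_const (by norm_num)))) (by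
        filter_upwards [hQ, hb0, hb1, hb2, Φ.fn, hJ, hL0.1, hL1.1, hL2.1,
          hLs.eventually_le (show (0 : ℝ) < r / 2 by linarith)] with k h1 h2 h3 h4 h5 h6 p0 p1 p2 h7 ω hω hE T hT
        have hδ := S.dl_pos r k
        have hη := S.dl_pos ε k
        have hn := (S.F k).pos
        have hLk : L k = L0 k + L1 k + L2 k := by rw [hLd]
        have hL0' : 0 ≤ L k := by rw [hLk]; linarith
        have e1 : 32 * (L k + 1) ^ 2 * S.dl r k ≤ (S.dl ε k) ^ 2 := by
          have e2 : (2 : ℝ) ^ (r / 2 * (S.F k).n) * S.dl r k = S.dl (r / 2) k := by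
            unfold Sp.dl
            rw [← Real.rpow_add (by norm_num)]
            congr 1
            ring
          have e3 : S.dl (r / 2) k ≤ (S.dl ε k) ^ 2 := by
            have e4 : (S.dl ε k) ^ 2 = S.dl (2 * ε) k := by
              unfold Sp.dl
              rw [← Real.rpow_natCast, ← Real.rpow_mul (by norm_num)]
              congr 1
              push_cast
              ring
            rw [e4]
            exact S.dl_anti (by linarith) k
          exact (mul_le_mul_of_nonneg_right (by linarith) hδ.le).trans (e2.le.trans e3)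
        have hε1 : S.dl ε k ≤ 1 := by
          unfold Sp.dl
          apply Real.rpow_le_one_of_one_le_of_nonpos (by norm_num)
          nlinarith
        have hb : ∀ i, |Q.v k ω i| ≤ R k := h1 ω hω
        have hone := one_dir (Φ := Φ.G k ω 0) (j := J k ω) (Φ.deg k ω 0) (R := R k) (L := L k) (r := S.dl r k)
          (η := S.dl ε k / 2) (y := MvPolynomial.eval (Q.v k ω) (Φ.G k ω 0)) hδ (by positivity) hL0' (by
            intro x x' hx hx' hd
            have := h2 ω hω x x' hx hx' _ hδ.le hd 0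
            refine this.trans ?_
            apply mul_le_mul_of_nonneg_right _ hδ.le
            rw [hLk]
            linarith) (by
            intro x x' hx hx' hd
            have := h3 ω hω x x' hx hx' _ hδ.le hd 0
            refine this.trans ?_
            apply mul_le_mul_of_nonneg_right _ hδ.le
            rw [hLk]
            linarith) (by
            intro x hx
            have := h4 ω hω x hx 0
            refine this.trans ?_
            rw [hLk]
            linarith) (by
            nlinarith [hδ.le, mul_nonneg hL0' hδ.le, mul_nonneg (mul_nonneg hL0' hL0') hδ.le]) (by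
            nlinarith [hδ.le, mul_nonneg hL0' hδ.le, mul_nonneg (mul_nonneg hL0' hL0') hδ.le]) (z := Q.v k ω) hb T (by
            intro a ha
            obtain ⟨ω', g1, g2, g3, g4, _, g6⟩ := hT a ha
            have f1 : Φ.G k ω' = Φ.G k ω := h5 ω' ω g1 hω g4
            have f2 : J k ω' = J k ω := h6 ω' ω g1 hω g4
            have g3' : ((rep Φ J hJ u hκ).val Q).cellv r k ω' = ((rep Φ J hJ u hκ).val Q).cellv r k ω := g3
            have g7 : ∀ i, ⌊(rep Φ J hJ u hκ).ev k ω' (Q.v k ω') i / S.dl r k⌋ =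
                ⌊(rep Φ J hJ u hκ).ev k ω (Q.v k ω) i / S.dl r k⌋ := fun i => congrFun g3' i
            refine ⟨Q.v k ω', h1 ω' g1, g6, ?_, ?_, ?_⟩
            · rw [f1, f2] at g2
              linarith
            · intro i hi
              have g8 : Equiv.swap u (J k ω) i ≠ u := by
                intro h
                apply hi
                have := congrArg (Equiv.swap u (J k ω)) h
                rw [Equiv.swap_apply_self, Equiv.swap_apply_left] at this
                exact this
              have g9 := g7 (Equiv.swap u (J k ω) i)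
              rw [rep_ne _ _ _ _ _ _ _ _ g8, rep_ne _ _ _ _ _ _ _ _ g8, f2, Equiv.swap_apply_self] at g9
              exact g9
            · have g9 := g7 u
              rw [rep_u, rep_u, f1] at g9
              have a1 := Int.floor_le (MvPolynomial.eval (Q.v k ω') (Φ.G k ω 0) / S.dl r k)
              have a2 := Int.lt_floor_add_one (MvPolynomial.eval (Q.v k ω') (Φ.G k ω 0) / S.dl r k)
              have a3 := Int.floor_le (MvPolynomial.eval (Q.v k ω) (Φ.G k ω 0) / S.dl r k)
              have a4 := Int.lt_floor_add_one (MvPolynomial.eval (Q.v k ω) (Φ.G k ω 0) / S.dl r k)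
              rw [g9] at a1 a2
              have a5 : |MvPolynomial.eval (Q.v k ω') (Φ.G k ω 0) / S.dl r k -
                  MvPolynomial.eval (Q.v k ω) (Φ.G k ω 0) / S.dl r k| ≤ 1 := abs_le.2 ⟨by linarith, by linarith⟩
              rw [← sub_div, abs_div, abs_of_pos hδ, div_le_one hδ] at a5
              exact a5)
        refine hone.trans ?_
        have e5 : (2 : ℝ) ^ (ε * (S.F k).n) = 1 / S.dl ε k := by
          unfold Sp.dl
          rw [Real.rpow_neg (by norm_num), one_div, inv_inv]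
        rw [e5, mul_assoc]
        apply mul_le_mul_of_nonneg_left _ (by positivity)
        rw [mul_one_div, le_div_iff₀ hη]
        have e6 : (4 * (L k + 1) / (S.dl ε k / 2) + 2) * S.dl ε k = 8 * (L k + 1) + 2 * S.dl ε k := by
          field_simp
          ring
        rw [e6]
        linarith) (2 * N) (by
        have h1 := cellv_card Q hr1
        filter_upwards [h1] with k hk T hT
        exact hk T hT)
    refine ⟨h1.1, h1.2.trans (le_of_eq ?_)⟩
    have e1 : (fun k => ∑ ω, (S.F k).μ ω * ε) = fun _ => ε := by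
      funext k
      rw [← Finset.sum_mul, Pool.Agent.Helper3.PR.sum_mu, one_mul]
    rw [e1, ul_const]
  have hUB := (key (r / 4) (by linarith) le_rfl).1
  have h0 : ul (S.rt (fun k => Setoid.ker (Q.cellv r k)) (fun k => Setoid.ker (((rep Φ J hJ u hκ).val Q).cellv r k))) ≤ 0 := by
    apply le_of_forall_pos_le_add
    intro ε hε
    rw [zero_add]
    exact (key (min ε (r / 4)) (by positivity) (min_le_right _ _)).2.trans (min_le_left _ _)
  have hge : ∀ k, 0 ≤ S.rt (fun k => Setoid.ker (Q.cellv r k))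
      (fun k => Setoid.ker (((rep Φ J hJ u hκ).val Q).cellv r k)) k := by
    intro k
    unfold Sp.rt
    rw [← h_fc]
    exact div_nonneg (h_nonneg _ _) (S.F k).pos.le
  have ht := ul_tendsto hUB
  have h1 : ul (S.rt (fun k => Setoid.ker (Q.cellv r k))
      (fun k => Setoid.ker (((rep Φ J hJ u hκ).val Q).cellv r k))) = 0 :=
    le_antisymm h0 (ge_of_tendsto ht (Eventually.of_forall hge))
  rw [h1] at ht
  unfold Nul
  refine ht.congr fun k => ?_
  unfold Sp.rt
  rw [← h_fc]

end

end Pool.Agent.Helper40.PB
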