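import Mathlib

/-! Number of cells of the real points at which a polynomial of one variable is close to a value and its derivative is
not small. -/

set_option autoImplicit false

namespace Pool.Agent.Helper40.PB

open Polynomial Finset

noncomputable section

/-- between two points with close values there is a critical point, if they are not too close -/
theorem crit_pos {p : ℝ[X]} {y δ η B t t' : ℝ} (hη : 0 < η) (hδ : 0 ≤ δ) (hB : 0 ≤ B) (hc : 8 * δ * B ≤ η ^ 2)
    (hB' : ∀ x, t ≤ x → x ≤ t' → |(derivative (derivative p)).eval x| ≤ B) (h1 : |p.eval t - y| ≤ δ)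
    (h2 : |p.eval t' - y| ≤ δ) (h3 : η ≤ (derivative p).eval t) (h : t + 4 * δ / η < t') :
    ∃ s, t ≤ s ∧ s < t' ∧ (derivative p).eval s = 0 := by
  by_contra hno
  push Not at hno
  have hr0 : 0 ≤ 4 * δ / η := by positivity
  have htt : t < t' := by linarith
  -- the derivative is positive
  have hpos : ∀ x, t ≤ x → x < t' → 0 < (derivative p).eval x := by
    intro x hx hx'
    by_contra hneg
    push Not at hneg
    have hcont : ContinuousOn (fun x => (derivative p).eval x) (Set.Icc t x) := (derivative p).continuousOn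
    have h4 : (0 : ℝ) ∈ Set.Icc ((derivative p).eval x) ((derivative p).eval t) := ⟨hneg, by linarith⟩
    obtain ⟨s, hs, hs0⟩ := intermediate_value_Icc' hx hcont h4
    exact hno s hs.1 (lt_of_le_of_lt hs.2 hx') hs0
  -- the derivative is large near t
  have hlarge : ∀ x, t ≤ x → x ≤ t + 4 * δ / η → η / 2 ≤ (derivative p).eval x := by
    intro x hx hx'
    have h4 : |(derivative p).eval x - (derivative p).eval t| ≤ B * |x - t| := by
      have := Convex.norm_image_sub_le_of_norm_deriv_le (f := fun x => (derivative p).eval x) (C := B)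
        (s := Set.Icc t x) (x := t) (y := x) (fun z _ => (derivative p).differentiableAt) (fun z hz => by
          have e1 : deriv (fun x => (derivative p).eval x) z = (derivative (derivative p)).eval z :=
            (derivative p).deriv
          rw [e1, Real.norm_eq_abs]
          exact hB' z hz.1 (hz.2.trans (by linarith))) (convex_Icc t x) (Set.left_mem_Icc.2 hx)
          (Set.right_mem_Icc.2 hx)
      simpa [Real.norm_eq_abs] using this
    have h5 : B * |x - t| ≤ η / 2 := by
      rw [abs_of_nonneg (by linarith)]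
      have h6 : B * (x - t) ≤ B * (4 * δ / η) := mul_le_mul_of_nonneg_left (by linarith) hB
      have h7 : B * (4 * δ / η) ≤ η / 2 := by
        rw [mul_div_assoc', div_le_iff₀ hη]
        nlinarith
      linarith
    have h6 := (abs_le.1 h4).1
    linarith
  -- growth
  have hg : η / 2 * (4 * δ / η) ≤ p.eval (t + 4 * δ / η) - p.eval t := by
    have := Convex.mul_sub_le_image_sub_of_le_deriv (D := Set.Icc t (t + 4 * δ / η)) (convex_Icc _ _)
      (f := fun x => p.eval x) p.continuousOn p.differentiable.differentiableOn (C := η / 2) (fun x hx => by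
        rw [interior_Icc] at hx
        have e1 : deriv (fun x => p.eval x) x = (derivative p).eval x := p.deriv
        rw [e1]
        exact hlarge x hx.1.le hx.2.le) t (Set.left_mem_Icc.2 (by linarith)) (t + 4 * δ / η)
        (Set.right_mem_Icc.2 (by linarith)) (by linarith)
    simpa using this
  have hg2 : p.eval (t + 4 * δ / η) < p.eval t' := by
    have hsm : StrictMonoOn (fun x => p.eval x) (Set.Icc t t') := by
      apply strictMonoOn_of_deriv_pos (convex_Icc _ _) p.continuousOn
      intro x hx
      rw [interior_Icc] at hx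
      have e1 : deriv (fun x => p.eval x) x = (derivative p).eval x := p.deriv
      rw [e1]
      exact hpos x hx.1.le hx.2
    exact hsm ⟨by linarith, h.le⟩ ⟨htt.le, le_rfl⟩ h
  have e1 : η / 2 * (4 * δ / η) = 2 * δ := by
    field_simp
    ring
  rw [e1] at hg
  have h4 := (abs_le.1 h1).1
  have h5 := (abs_le.1 h2).2
  linarith

theorem crit_between {p : ℝ[X]} {y δ η B t t' : ℝ} (hη : 0 < η) (hδ : 0 ≤ δ) (hB : 0 ≤ B) (hc : 8 * δ * B ≤ η ^ 2)
    (hB' : ∀ x, t ≤ x → x ≤ t' → |(derivative (derivative p)).eval x| ≤ B) (h1 : |p.eval t - y| ≤ δ)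
    (h2 : |p.eval t' - y| ≤ δ) (h3 : η ≤ |(derivative p).eval t|) (h : t + 4 * δ / η < t') :
    ∃ s, t ≤ s ∧ s < t' ∧ (derivative p).eval s = 0 := by
  rcases le_or_gt 0 ((derivative p).eval t) with h0 | h0
  · rw [abs_of_nonneg h0] at h3
    exact crit_pos hη hδ hB hc hB' h1 h2 h3 h
  · rw [abs_of_neg h0] at h3
    obtain ⟨s, hs1, hs2, hs3⟩ := crit_pos (p := -p) (y := -y) hη hδ hB hc (fun x hx hx' => by
      rw [derivative_neg, derivative_neg, eval_neg, abs_neg]
      exact hB' x hx hx') (by
        rw [eval_neg]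
        have : -p.eval t - -y = -(p.eval t - y) := by ring
        rw [this, abs_neg]
        exact h1) (by
        rw [eval_neg]
        have : -p.eval t' - -y = -(p.eval t' - y) := by ring
        rw [this, abs_neg]
        exact h2) (by
        rw [derivative_neg, eval_neg]
        exact h3) h
    refine ⟨s, hs1, hs2, ?_⟩
    rw [derivative_neg, eval_neg, neg_eq_zero] at hs3
    exact hs3

/-- a set of integers with small differences -/
theorem card_le_of_diff {T : Finset ℤ} {n : ℕ} (hn : 1 ≤ n) (h : ∀ a ∈ T, ∀ b ∈ T, a - b ≤ (n : ℤ) - 1) : T.card ≤ n := by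
  rcases T.eq_empty_or_nonempty with h0 | h0
  · rw [h0, Finset.card_empty]
    exact Nat.zero_le _
  · have h1 : T ⊆ Finset.Icc (T.min' h0) (T.min' h0 + ((n : ℤ) - 1)) := by
      intro a ha
      rw [Finset.mem_Icc]
      refine ⟨T.min'_le a ha, ?_⟩
      have := h a ha _ (T.min'_mem h0)
      linarith
    refine (Finset.card_le_card h1).trans ?_
    rw [Int.card_Icc]
    omega

/-- THE COUNT: cells of side `r` -/
theorem root_count {p : ℝ[X]} {κ : ℕ} (hp : p.natDegree ≤ κ) {y δ η B r a0 b0 : ℝ} (hη : 0 < η) (hδ : 0 ≤ δ)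
    (hB : 0 ≤ B) (hr : 0 < r) (hc : 8 * δ * B ≤ η ^ 2)
    (hB' : ∀ x, a0 ≤ x → x ≤ b0 → |(derivative (derivative p)).eval x| ≤ B) (T : Finset ℤ)
    (hT : ∀ a ∈ T, ∃ t, a0 ≤ t ∧ t ≤ b0 ∧ |p.eval t - y| ≤ δ ∧ η ≤ |(derivative p).eval t| ∧ ⌊t / r⌋ = a) :
    (T.card : ℝ) ≤ ((κ : ℝ) + 1) * (4 * δ / η / r + 2) := by
  classical
  choose! g hg using hT
  have hr0 : 0 ≤ 4 * δ / η / r := by positivity
  set n : ℕ := ⌊4 * δ / η / r⌋₊ + 2 with hn
  set c : ℝ → ℕ := fun s => ((derivative p).roots.toFinset.filter (fun x => x < s)).card with hcd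
  have hd0 : ∀ a ∈ T, derivative p ≠ 0 := by
    intro a ha h0
    have := (hg a ha).2.2.2.1
    rw [h0, eval_zero, abs_zero] at this
    linarith
  have hckey : ∀ a ∈ T, ∀ b ∈ T, c (g a) = c (g b) → g b - g a ≤ 4 * δ / η := by
    intro a ha b hb hab
    by_contra hlt
    push Not at hlt
    have h1 := hg a ha
    have h2 := hg b hb
    obtain ⟨s, hs1, hs2, hs3⟩ := crit_between (p := p) (t := g a) (t' := g b) hη hδ hB hc
      (fun x hx hx' => hB' x (h1.1.trans hx) (hx'.trans h2.2.1)) h1.2.2.1 h2.2.2.1 h1.2.2.2.1 (by linarith)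
    have h3 : ((derivative p).roots.toFinset.filter (fun x => x < g a)) ⊂
        ((derivative p).roots.toFinset.filter (fun x => x < g b)) := by
      rw [Finset.ssubset_iff_of_subset]
      · refine ⟨s, ?_, ?_⟩
        · rw [Finset.mem_filter, Multiset.mem_toFinset, mem_roots (hd0 a ha)]
          exact ⟨hs3, hs2⟩
        · rw [Finset.mem_filter]
          rintro ⟨-, h4⟩
          linarith
      · intro x hx
        rw [Finset.mem_filter] at hx ⊢
        refine ⟨hx.1, hx.2.trans ?_⟩
        have : 0 ≤ 4 * δ / η := by positivity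
        linarith
    have h4 := Finset.card_lt_card h3
    have h5 : c (g a) < c (g b) := h4
    omega
  have himg : (T.image fun a => c (g a)).card ≤ κ + 1 := by
    have h1 : (T.image fun a => c (g a)) ⊆ Finset.range (κ + 1) := by
      intro x hx
      rw [Finset.mem_image] at hx
      obtain ⟨a, ha, rfl⟩ := hx
      rw [Finset.mem_range]
      have h2 : c (g a) ≤ (derivative p).roots.toFinset.card := Finset.card_filter_le _ _
      have h3 : (derivative p).roots.toFinset.card ≤ (derivative p).natDegree :=
        (Multiset.toFinset_card_le _).trans (card_roots' _)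
      have h4 : (derivative p).natDegree ≤ κ := (natDegree_derivative_le p).trans (by omega)
      omega
    refine (Finset.card_le_card h1).trans ?_
    rw [Finset.card_range]
  have hfib : ∀ x ∈ T.image (fun a => c (g a)), (T.filter fun a => c (g a) = x).card ≤ n := by
    intro x _
    refine card_le_of_diff (by omega) ?_
    intro a ha b hb
    rw [Finset.mem_filter] at ha hb
    have h1 := hckey b hb.1 a ha.1 (hb.2.trans ha.2.symm)
    have h2 := (hg a ha.1).2.2.2.2
    have h3 := (hg b hb.1).2.2.2.2
    have h4 : (a : ℝ) ≤ g a / r := by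
      have h4 := Int.floor_le (g a / r)
      rwa [h2] at h4
    have h5 : g b / r < (b : ℝ) + 1 := by
      have h5 := Int.lt_floor_add_one (g b / r)
      rwa [h3] at h5
    have h6 : g a / r - g b / r ≤ 4 * δ / η / r := by
      rw [← sub_div]
      exact div_le_div_of_nonneg_right h1 hr.le
    have h7 : ((a - b - 1 : ℤ) : ℝ) < 4 * δ / η / r := by
      push_cast
      linarith
    have h8 : a - b - 1 ≤ (⌊4 * δ / η / r⌋₊ : ℤ) := by
      by_contra h9
      push Not at h9
      have h10 : ((⌊4 * δ / η / r⌋₊ : ℕ) : ℝ) + 1 ≤ ((a - b - 1 : ℤ) : ℝ) := by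
        exact_mod_cast h9
      have h11 := Nat.lt_floor_add_one (4 * δ / η / r)
      linarith
    rw [hn]
    push_cast
    linarith
  have h1 := Finset.card_le_mul_card_image (f := fun a => c (g a)) T n hfib
  have h2 : (T.card : ℝ) ≤ (n : ℝ) * ((κ : ℝ) + 1) := by
    have h3 : T.card ≤ n * (κ + 1) := h1.trans (Nat.mul_le_mul_left n himg)
    exact_mod_cast h3
  have h3 : (n : ℝ) ≤ 4 * δ / η / r + 2 := by
    rw [hn]
    push_cast
    have := Nat.floor_le hr0
    linarith
  have h4 : (0 : ℝ) ≤ (κ : ℝ) + 1 := by positivity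
  nlinarith

end

end Pool.Agent.Helper40.PB
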