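import Pool.Agent.Helper40.PB.Rep
import Pool.Agent.Helper58.CCZ.Der

/-! DATA OF DEGREE `k` WITH A DERIVATIVE WHICH IS NOT SMALL: over the information of the polynomial and of the index of
the largest derivative, the image of the system under `(Φ, x_i)` is a system of the class `CL k`. -/

set_option autoImplicit false

namespace Pool.Agent.Helper40.PB

open Finset Filter Topology Pool.Agent.Helper69.RK Pool.Agent.Helper31.EC Pool.Agent.Helper31.EC.Sp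
open Pool.Agent.Helper40.EL Pool.Agent.Helper89.LX Pool.Agent.Helper3.LF Pool.Agent.Helper84.MT
open Pool.Agent.Helper95.LF
open Pool.Agent.Helper36.AM Pool.Agent.Helper49.MD
open Pool.Agent.Helper75.CC Pool.Agent.Helper29.MX Pool.Agent.Helper77.WDG Pool.Agent.Helper24.PR
open Pool.Agent.Helper80.OKC Pool.Agent.Helper80.SUB Pool.Agent.Helper58.CCZ

noncomputable section

variable {S T : Sp} {N k κ : ℕ} {E E' : ℕ → ℕ} {ι : Type} {t u : Fin N} {W : ℝ} {s : MSys S N E ι}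

/-! ### null informations -/

theorem nul_fin (J : ∀ k, (S.F k).Ω → Fin N) : Nul S (fun k => H (fc (Setoid.ker (J k)) : FL (S.F k))) := by
  classical
  have h1 := Pool.Agent.Helper4.VZ.CNT_gen (S := S) J (fun _ => ⊤) (fun _ _ => True) Typ_true (fun _ _ => 0) 0
    (Eventually.of_forall fun _ _ _ => by rw [abs_zero]) (fun _ _ => 0) 0
    (Eventually.of_forall fun _ _ _ => le_rfl) (fun _ => (N : ℝ)) (S.Sub_const (Nat.cast_nonneg N))
    (Eventually.of_forall fun k ω _ _ T _ => by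
      rw [zero_mul, Real.rpow_zero, mul_one]
      have h2 := Finset.card_le_univ T
      rw [Fintype.card_fin] at h2
      exact_mod_cast h2) 1 (by
      filter_upwards [eventually_le_two_pow S (N : ℝ)] with k hk T _
      rw [one_mul]
      refine le_trans ?_ hk
      have h2 := Finset.card_le_univ T
      rw [Fintype.card_fin] at h2
      exact_mod_cast h2)
  have e0 : (fun k => ∑ ω, (S.F k).μ ω * (0 : ℝ)) = fun _ => 0 := by
    funext k
    exact Finset.sum_eq_zero fun _ _ => mul_zero _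
  rw [e0, ul_const] at h1
  have e1 : S.rt (fun k => Setoid.ker (J k)) (fun _ => ⊤) =
      fun k => H (fc (Setoid.ker (J k)) : FL (S.F k)) / (S.F k).n := by
    funext k
    rw [H_fc]
    show (S.F k).e (Setoid.ker (J k)) (⊤ ⊓ (S.F k).Z) / (S.F k).n = _
    rw [top_inf_eq]
  rw [e1] at h1
  have ht := ul_tendsto h1.1
  have h3 : 0 ≤ ul (fun k => H (fc (Setoid.ker (J k)) : FL (S.F k)) / (S.F k).n) :=
    ge_of_tendsto' ht fun k => div_nonneg (H_nonneg _) (S.F k).pos.le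
  rw [le_antisymm h1.2 h3] at ht
  exact ht

/-- the index of the largest derivative, different from `t` -/
theorem exists_idx (htu : u ≠ t) (f : Fin N → ℝ) : ∃ i, i ≠ t ∧ ∀ j, j ≠ t → f j ≤ f i := by
  classical
  obtain ⟨i, hi, h⟩ := Finset.exists_max_image (univ.filter fun i => i ≠ t) f ⟨u, by simp [htu]⟩
  refine ⟨i, (Finset.mem_filter.1 hi).2, fun j hj => h j (by simp [hj])⟩

/-- the index -/
def idx (d : Dt k t (fun _ => 1) W s) (htu : u ≠ t) (n : ℕ) (ω : (S.F n).Ω) : Fin N :=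
  (exists_idx htu fun i => |MvPolynomial.eval (s.Q.v n ω) (MvPolynomial.pderiv i (d.Φ n ω))|).choose

theorem idx_ne (d : Dt k t (fun _ => 1) W s) (htu : u ≠ t) (n : ℕ) (ω : (S.F n).Ω) : idx d htu n ω ≠ t :=
  (exists_idx htu fun i => |MvPolynomial.eval (s.Q.v n ω) (MvPolynomial.pderiv i (d.Φ n ω))|).choose_spec.1

theorem le_idx (d : Dt k t (fun _ => 1) W s) (htu : u ≠ t) (n : ℕ) (ω : (S.F n).Ω) (j : Fin N) (hj : j ≠ t) :
    |MvPolynomial.eval (s.Q.v n ω) (MvPolynomial.pderiv j (d.Φ n ω))| ≤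
      |MvPolynomial.eval (s.Q.v n ω) (MvPolynomial.pderiv (idx d htu n ω) (d.Φ n ω))| :=
  (exists_idx htu fun i => |MvPolynomial.eval (s.Q.v n ω) (MvPolynomial.pderiv i (d.Φ n ω))|).choose_spec.2 j hj

/-- the information -/
def w1 (d : Dt k t (fun _ => 1) W s) (htu : u ≠ t) (n : ℕ) : Setoid (S.F n).Ω := d.W0 n ⊓ Setoid.ker (idx d htu n)

theorem nul_w1 (d : Dt k t (fun _ => 1) W s) (htu : u ≠ t) : Nul S (fun n => H (fc (w1 d htu n) : FL (S.F n))) := by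
  refine (d.nW.add (nul_fin (idx d htu))).of_le (Eventually.of_forall fun _ => H_nonneg _)
    (Eventually.of_forall fun n => ?_)
  show H (fc (d.W0 n ⊓ Setoid.ker (idx d htu n))) ≤ _
  rw [fc_inf]
  exact H_sup_le _ _

/-- the label -/
def lb1 (d : Dt k t (fun _ => 1) W s) (htu : u ≠ t) : Lab S := Lab.ofZ (w1 d htu)

theorem lb1_leak (d : Dt k t (fun _ => 1) W s) (htu : u ≠ t) (x : Part S) :
    Nul S (fun n => (lb1 d htu n).leak (x n)) := by
  refine (nul_w1 d htu).of_le (Eventually.of_forall fun n => FLab.leak_nonneg _ _) (Eventually.of_forall fun n => ?_)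
  have h1 : (lb1 d htu n).leak (x n) = Helper31.EC.h (fc (w1 d htu n)) (x n) := Lab.ofZ_leak (w1 d htu) x n
  rw [h1]
  exact h_le_H _ _

/-- the polynomial over the label -/
def phi1 (d : Dt k t (fun _ => 1) W s) (htu : u ≠ t) (κ : ℕ) : PMap ((lb1 d htu).ovr 1 one_pos) N 1 κ where
  G := fun n (ω : (lb1 d htu n).T.Ω) _ => by
    classical exact if (d.Φ n ((lb1 d htu n).p.π ω)).totalDegree ≤ κ then d.Φ n ((lb1 d htu n).p.π ω) else 0
  deg := by
    intro n ω i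
    split_ifs with h
    · exact h
    · rw [MvPolynomial.totalDegree_zero]
      exact Nat.zero_le _
  fn := by
    filter_upwards [d.fΦ] with n hn
    intro (ω : (lb1 d htu n).T.Ω) (ω' : (lb1 d htu n).T.Ω) h1 h2 h3
    have h5 : (lb1 d htu n).T.Z ω ω' := h3.2
    have h6 : (w1 d htu n) ω ω' := h3.1
    have h7 := hn _ _ ((lb1 d htu n).p.supp ω h1) ((lb1 d htu n).p.supp ω' h2)
      (((lb1 d htu n).p.hZ ω ω' h1 h2).1 h5) h6.1
    funext i
    rw [h7]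
  bd := by
    obtain ⟨K, hK, h⟩ := d.bΦ
    refine ⟨K, (zu1 (lb1 d htu)).Sub_sp.mp hK, ?_⟩
    filter_upwards [h, hK.1] with n hn hK0
    intro (ω : (lb1 d htu n).T.Ω) hω i a
    split_ifs with h
    · exact hn _ ((lb1 d htu n).p.supp ω hω) a
    · rw [MvPolynomial.coeff_zero, abs_zero]
      exact hK0

theorem phi1_eq (d : Dt k t (fun _ => 1) W s) (htu : u ≠ t) (hκ : ⌊W⌋₊ ≤ κ) : ∀ᶠ n in UF,
    ∀ ω : (lb1 d htu n).T.Ω, (lb1 d htu n).T.μ ω ≠ 0 → (phi1 d htu κ).G n ω 0 = d.Φ n ((lb1 d htu n).p.π ω) := by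
  obtain ⟨K, _, h⟩ := phi_bounds d fun _ => le_rfl
  filter_upwards [h] with n hn ω hω
  have h1 := (hn.2 _ ((lb1 d htu n).p.supp ω hω)).1.trans hκ
  show (if (d.Φ n ((lb1 d htu n).p.π ω)).totalDegree ≤ κ then d.Φ n ((lb1 d htu n).p.π ω) else 0) = _
  rw [if_pos h1]

/-- the index over the label -/
def idx1 (d : Dt k t (fun _ => 1) W s) (htu : u ≠ t) (n : ℕ) (ω : (((lb1 d htu).ovr 1 one_pos).F n).Ω) : Fin N :=
  idx d htu n ((lb1 d htu n).p.π ω)

theorem knb (d : Dt k t (fun _ => 1) W s) (htu : u ≠ t) : KnB (idx1 d htu) := by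
  refine Eventually.of_forall fun n => ?_
  intro (ω : (lb1 d htu n).T.Ω) (ω' : (lb1 d htu n).T.Ω) _ _ h3
  have h6 : (w1 d htu n) ω ω' := h3.1
  exact h6.2

theorem dl_ovr (l : Lab S) (ε : ℝ) (n : ℕ) : (l.ovr 1 one_pos).dl ε n = S.dl ε n := by
  have e2 : ((l.ovr 1 one_pos).F n).n = 1 * (S.F n).n := l.n_over 1 one_pos n
  unfold Sp.dl
  rw [e2, one_mul]

/-- the system over the label -/
def s1 (d : Dt k t (fun _ => 1) W s) (htu : u ≠ t) : MSys ((lb1 d htu).ovr 1 one_pos) N E ι :=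
  ovl s (lb1 d htu) fun i => lb1_leak d htu ((s.lf i).win 0)

theorem derl (d : Dt k t (fun _ => 1) W s) (htu : u ≠ t) (hd : Der d) (hκ : ⌊W⌋₊ ≤ κ) :
    DerL (s1 d htu).Q (phi1 d htu κ) (idx1 d htu) := by
  intro ε hε
  have h1 := (der_iff d).mp hd ε hε
  have h2 : S.Typ fun n ω => S.dl ε n ≤
      |MvPolynomial.eval (s.Q.v n ω) (MvPolynomial.pderiv (idx d htu n ω) (d.Φ n ω))| := by
    refine h1.mono (Eventually.of_forall fun n ω _ h => ?_)
    obtain ⟨i, hi, h3⟩ := h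
    exact h3.trans (le_idx d htu n ω i hi)
  have h3 : Typ (S := (lb1 d htu).sp) (fun n (ω : (lb1 d htu n).T.Ω) => S.dl ε n ≤
      |MvPolynomial.eval (s.Q.v n ((lb1 d htu n).p.π ω)) (MvPolynomial.pderiv (idx d htu n ((lb1 d htu n).p.π ω))
        (d.Φ n ((lb1 d htu n).p.π ω)))|) := (lb1 d htu).pj.typ h2
  refine Typ.mono (S := (lb1 d htu).ovr 1 one_pos) h3 ?_
  filter_upwards [phi1_eq d htu hκ] with n hn
  intro (ω : (lb1 d htu n).T.Ω) hω h4
  rw [dl_ovr, hn ω hω]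
  exact h4

/-- THE IMAGE SYSTEM -/
def s2 (d : Dt k t (fun _ => 1) W s) (htu : u ≠ t) (κ : ℕ) (hκ : 1 ≤ κ) (hE : ∀ D, E (κ * D) ≤ E' D) :
    MSys ((lb1 d htu).ovr 1 one_pos) N E' ι :=
  (s1 d htu).img (rep (phi1 d htu κ) (idx1 d htu) (knb d htu) u hκ) hκ hE

/-- the coordinate `t` is not changed -/
theorem s2_t (d : Dt k t (fun _ => 1) W s) (htu : u ≠ t) (hκ : 1 ≤ κ) (hE : ∀ D, E (κ * D) ≤ E' D) (n : ℕ)
    (ω : (((lb1 d htu).ovr 1 one_pos).F n).Ω) :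
    (s2 d htu κ hκ hE).Q.v n ω t = (s1 d htu).Q.v n ω t := by
  show (rep (phi1 d htu κ) (idx1 d htu) (knb d htu) u hκ).ev n ω ((s1 d htu).Q.v n ω) t = _
  have e1 : Equiv.swap u (idx1 d htu n ω) t = t :=
    Equiv.swap_apply_of_ne_of_ne htu.symm (idx_ne d htu n ((lb1 d htu n).p.π ω)).symm
  rw [rep_ne _ _ _ _ _ _ _ _ htu.symm, e1]

/-- the coordinate `u` is the value of the polynomial -/
theorem s2_u (d : Dt k t (fun _ => 1) W s) (htu : u ≠ t) (hκ : 1 ≤ κ) (hE : ∀ D, E (κ * D) ≤ E' D) (n : ℕ)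
    (ω : (((lb1 d htu).ovr 1 one_pos).F n).Ω) :
    (s2 d htu κ hκ hE).Q.v n ω u = MvPolynomial.eval ((s1 d htu).Q.v n ω) ((phi1 d htu κ).G n ω 0) := by
  show (rep (phi1 d htu κ) (idx1 d htu) (knb d htu) u hκ).ev n ω ((s1 d htu).Q.v n ω) u = _
  rw [rep_u]

/-- MEMBERSHIP in `CL` -/
theorem dl_s2 (d : Dt k t (fun _ => 1) W s) (htu : u ≠ t) (hκ : 1 ≤ κ) (hW : ⌊W⌋₊ ≤ κ)
    (hE : ∀ D, E (κ * D) ≤ E' D) : Nonempty (Dl k t u (s2 d htu κ hκ hE)) := by
  have hSL := SL_bas d.sl (lb1 d htu) fun i => lb1_leak d htu ((s.lf i).win 0)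
  have hc : ∀ (b : ℝ) (n : ℕ), ((s2 d htu κ hκ hE).Q.co t).cellv b n = ((s1 d htu).Q.co t).cellv b n := by
    intro b n
    funext ω i
    show ⌊(s2 d htu κ hκ hE).Q.v n ω t / _⌋ = ⌊(s1 d htu).Q.v n ω t / _⌋
    rw [s2_t]
  refine ⟨{
    i := d.i
    L := zL (zu1 (lb1 d htu)) s.Q t d.L
    a := fun n (ω : (lb1 d htu n).T.Ω) => d.a n ((lb1 d htu n).p.π ω)
    sl := ⟨?_, ?_⟩
    fa := ?_
    ba := ?_
    eq := ?_ }⟩
  · intro b h0 h1
    have h2 := hSL.win b h0 h1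
    have e1 : sw (s2 d htu κ hκ hE).Q t (zL (zu1 (lb1 d htu)) s.Q t d.L) b =
        sw (s1 d htu).Q t (zL (zu1 (lb1 d htu)) s.Q t d.L) b := by
      funext n
      show fc (_ ⊓ Setoid.ker (((s2 d htu κ hκ hE).Q.co t).cellv b n)) = fc (_ ⊓ Setoid.ker (((s1 d htu).Q.co t).cellv b n))
      rw [hc]
    rw [e1]
    exact h2
  · have h2 := hSL.real
    refine h2.congr fun n => ?_
    rw [hc]
    rfl
  · filter_upwards [d.fa] with n hn
    intro (ω : (lb1 d htu n).T.Ω) (ω' : (lb1 d htu n).T.Ω) h1 h2 h3 h4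
    have h5 : (lb1 d htu n).T.Z ω ω' := h3.2
    have h6 : (zL (zu1 (lb1 d htu)) s.Q t d.L n) ω ω' := h4
    exact hn _ _ ((lb1 d htu n).p.supp ω h1) ((lb1 d htu n).p.supp ω' h2)
      (((lb1 d htu n).p.hZ ω ω' h1 h2).1 h5) h6.1
  · obtain ⟨K, hK, h⟩ := d.ba
    refine ⟨K, (zu1 (lb1 d htu)).Sub_sp.mp hK, ?_⟩
    filter_upwards [h] with n hn
    intro (ω : (lb1 d htu n).T.Ω) hω j
    exact hn _ ((lb1 d htu n).p.supp ω hω) j
  · obtain ⟨K, hK, h⟩ := d.eq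
    refine ⟨K, (zu1 (lb1 d htu)).Sub_sp.mp hK, ?_⟩
    have h1 : Typ (S := (lb1 d htu).sp) (fun n (ω : (lb1 d htu n).T.Ω) =>
        |MvPolynomial.eval (s.Q.v n ((lb1 d htu n).p.π ω)) (d.Φ n ((lb1 d htu n).p.π ω)) -
        ∑ j, d.a n ((lb1 d htu n).p.π ω) j * s.Q.v n ((lb1 d htu n).p.π ω) t ^ (j : ℕ)| ≤ K n * S.dl 1 n) :=
      (lb1 d htu).pj.typ h
    refine Typ.mono (S := (lb1 d htu).ovr 1 one_pos) h1 ?_
    filter_upwards [phi1_eq d htu hW] with n hn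
    intro (ω : (lb1 d htu n).T.Ω) hω h4
    rw [dl_ovr, s2_u, s2_t, hn ω hω]
    exact h4

/-! ### cells -/

theorem DerL.im {Q : S.VV N} {Φ : PMap S N 1 κ} {J : ∀ k, (S.F k).Ω → Fin N} (h : DerL Q Φ J) (p : Pj T S)
    (A : ∀ k, (T.F k).Ω → Prop) (hA : 0 < ul (T.pr A)) :
    DerL (S := Sp.im p A) (Q.im p A) (Φ.im p A) J := by
  intro ε hε
  exact typ_im p A hA (h ε hε)

theorem KnB.im {J : ∀ k, (S.F k).Ω → Fin N} (h : KnB J) (p : Pj T S) (A : ∀ k, (T.F k).Ω → Prop) :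
    KnB (S := Sp.im p A) J := by
  filter_upwards [h] with n hn ω ω' h1 h2 h3
  exact hn _ _ (FSp.im_supp (p.fp n) (A n) ω h1) (FSp.im_supp (p.fp n) (A n) ω' h2) h3

/-- the cells of the point are known to the cells of the image, on events of extensions -/
theorem rep_hc {Q : S.VV N} {Φ : PMap S N 1 κ} {J : ∀ k, (S.F k).Ω → Fin N} {hJ : KnB J} {u : Fin N} {hκ : 1 ≤ κ}
    (hD : DerL Q Φ J) (T : Sp) (p : Pj T S) (A : ∀ k, (T.F k).Ω → Prop) (hA : 0 < ul (T.pr A)) (c : ℝ) (h0 : 0 ≤ c)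
    (h1 : c ≤ 1) : Nul (Sp.im p A) (fun k => Helper31.EC.h (fc (Setoid.ker ((Q.im p A).cellv c k)) : FL ((Sp.im p A).F k))
      (fc (Setoid.ker ((((rep Φ J hJ u hκ).val Q).im p A).cellv c k)))) := by
  rcases eq_or_lt_of_le h0 with h2 | h2
  · subst h2
    refine (nul_cell0 (Q.im p A)).of_le (Eventually.of_forall fun _ => h_nonneg _ _) (Eventually.of_forall fun n => ?_)
    exact h_le_H _ _
  · exact rep_cells (S := Sp.im p A) (Q.im p A) (Φ.im p A) J (hJ.im p A) u hκ (hD.im p A hA) h2 h1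

end

end Pool.Agent.Helper40.PB
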